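import Pool.Agent.N325.DD.Stm

/-!
# Project DD (helper325), part E: the density of the bad set (helper82)
-/

set_option autoImplicit false

namespace Pool.Agent.N82.DD

open Finset Filter Topology Pool.Agent.N325.DD

open Classical in
lemma good_eq (K X n : ℕ) :
    (Finset.Icc 1 n).filter (fun a => ∃ m ∈ R K n, ∃ s ∈ W K X, a = m * s) =
      (W K X).biUnion (fun s => (R K (n / s)).image (fun m => m * s)) := by
  ext a
  rw [mem_filter, mem_Icc, mem_biUnion]
  constructor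
  · rintro ⟨⟨h1, h2⟩, m, hm, s, hs, rfl⟩
    refine ⟨s, hs, mem_image.2 ⟨m, ?_, rfl⟩⟩
    have hs1 := (mem_W.1 hs).1.1
    rw [mem_R] at hm ⊢
    exact ⟨⟨hm.1.1, (Nat.le_div_iff_mul_le (by omega)).2 h2⟩, hm.2⟩
  · rintro ⟨s, hs, ha⟩
    obtain ⟨m, hm, rfl⟩ := mem_image.1 ha
    have hs1 := (mem_W.1 hs).1.1
    rw [mem_R] at hm
    have h2 : m * s ≤ n := (Nat.le_div_iff_mul_le (by omega)).1 hm.1.2
    refine ⟨⟨Nat.mul_pos hm.1.1 hs1, h2⟩, m, ?_, s, hs, rfl⟩
    rw [mem_R]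
    exact ⟨⟨hm.1.1, hm.1.2.trans (Nat.div_le_self n s)⟩, hm.2⟩

lemma card_good (K X n : ℕ) : (Bad K X n).card + ∑ s ∈ W K X, (R K (n / s)).card = n := by
  classical
  have h1 : (Bad K X n).card = (Icc 1 n).card -
      ((Finset.Icc 1 n).filter (fun a => ∃ m ∈ R K n, ∃ s ∈ W K X, a = m * s)).card := by
    have e : Bad K X n = (Icc 1 n) \
        ((Finset.Icc 1 n).filter (fun a => ∃ m ∈ R K n, ∃ s ∈ W K X, a = m * s)) := by
      ext a
      rw [mem_Bad, Finset.mem_sdiff, Finset.mem_filter, Finset.mem_Icc]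
      exact ⟨fun h => ⟨h.1, fun h' => h.2 h'.2⟩, fun h => ⟨h.1, fun h' => h.2 ⟨h.1, h'⟩⟩⟩
    rw [e, card_sdiff_of_subset (filter_subset _ _)]
  have h2 : ((Finset.Icc 1 n).filter (fun a => ∃ m ∈ R K n, ∃ s ∈ W K X, a = m * s)).card ≤
      (Icc 1 n).card := card_le_card (filter_subset _ _)
  have h3 : ((Finset.Icc 1 n).filter (fun a => ∃ m ∈ R K n, ∃ s ∈ W K X, a = m * s)).card =
      ∑ s ∈ W K X, (R K (n / s)).card := by
    rw [good_eq, card_biUnion]
    · refine sum_congr rfl fun s hs => ?_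
      have hs1 := (mem_W.1 hs).1.1
      exact card_image_of_injective _ fun x y hxy =>
        Nat.eq_of_mul_eq_mul_right (by omega) hxy
    · intro s hs s' hs' hne
      simp only [Function.onFun]
      rw [Finset.disjoint_left]
      intro a ha ha'
      obtain ⟨m, hm, rfl⟩ := mem_image.1 ha
      obtain ⟨m', hm', he⟩ := mem_image.1 ha'
      rw [mem_R] at hm hm'
      exact hne (unique_of hm.1.1 hm.2 (mem_W.1 hs).2 hm'.2 (mem_W.1 hs').2 he.symm).2
  rw [Nat.card_Icc, Nat.add_sub_cancel] at h1 h2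
  omega

lemma term_lim {K : ℕ} {C : ℝ} (hC : ∀ y : ℕ, |((R K y).card : ℝ) - kap K * y| ≤ C) {s : ℕ}
    (hs : 1 ≤ s) :
    Tendsto (fun n : ℕ => ((R K (n / s)).card : ℝ) / n) atTop (𝓝 (kap K * (1 / (s : ℝ)))) := by
  rw [tendsto_iff_norm_sub_tendsto_zero]
  have hlim : Tendsto (fun n : ℕ => (C + |kap K|) / (n : ℝ)) atTop (𝓝 0) :=
    tendsto_const_div_atTop_nhds_zero_nat _
  refine squeeze_zero' (Eventually.of_forall fun n => norm_nonneg _) ?_ hlim
  filter_upwards [eventually_ge_atTop 1] with n hn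
  have hn0 : (0 : ℝ) < n := by exact_mod_cast hn
  have hs0 : (0 : ℝ) < s := by exact_mod_cast hs
  have h1 := hC (n / s)
  have h2 : |(((n / s : ℕ) : ℝ)) - n / s| ≤ 1 := by
    rw [abs_le]
    have a1 : (((n / s : ℕ) : ℝ)) ≤ n / s := Nat.cast_div_le
    have a2 : (n : ℝ) / s < ((n / s : ℕ) : ℝ) + 1 := by
      rw [div_lt_iff₀ hs0]
      have := Nat.lt_mul_div_succ n (show 0 < s by omega)
      have h3 : (n : ℝ) < s * (((n / s : ℕ) : ℝ) + 1) := by exact_mod_cast this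
      linarith
    constructor <;> linarith
  have h3 : |((R K (n / s)).card : ℝ) - kap K * (n / s)| ≤ C + |kap K| := by
    have e : ((R K (n / s)).card : ℝ) - kap K * (n / s) =
        (((R K (n / s)).card : ℝ) - kap K * ((n / s : ℕ) : ℝ)) +
          kap K * ((((n / s : ℕ) : ℝ)) - n / s) := by ring
    rw [e]
    refine (abs_add_le _ _).trans (add_le_add h1 ?_)
    rw [abs_mul]
    calc |kap K| * |(((n / s : ℕ) : ℝ)) - n / s| ≤ |kap K| * 1 :=
          mul_le_mul_of_nonneg_left h2 (abs_nonneg _)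
      _ = |kap K| := mul_one _
  have e : ((R K (n / s)).card : ℝ) / n - kap K * (1 / (s : ℝ)) =
      (((R K (n / s)).card : ℝ) - kap K * (n / s)) / n := by
    field_simp
  rw [e, Real.norm_eq_abs, abs_div, abs_of_pos hn0]
  gcongr

/-- E: the density of the bad set -/
theorem bad_lim (K X : ℕ) (hA : ∃ C : ℝ, ∀ y : ℕ, |((R K y).card : ℝ) - kap K * y| ≤ C) :
    Filter.Tendsto (fun n : ℕ => ((Bad K X n).card : ℝ) / n) Filter.atTop (nhds (eps K X)) := by
  obtain ⟨C, hC⟩ := hA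
  have h1 : Tendsto (fun n : ℕ => 1 - ∑ s ∈ W K X, ((R K (n / s)).card : ℝ) / n) atTop
      (𝓝 (1 - ∑ s ∈ W K X, kap K * (1 / (s : ℝ)))) :=
    tendsto_const_nhds.sub (tendsto_finsetSum _ fun s hs => term_lim hC (mem_W.1 hs).1.1)
  unfold eps
  rw [mul_sum]
  refine h1.congr' ?_
  filter_upwards [eventually_ge_atTop 1] with n hn
  have hn0 : (n : ℝ) ≠ 0 := by
    have : (0 : ℝ) < n := by exact_mod_cast hn
    exact this.ne'
  have h2 : ((Bad K X n).card : ℝ) + ∑ s ∈ W K X, ((R K (n / s)).card : ℝ) = n := by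
    exact_mod_cast card_good K X n
  rw [← sum_div, eq_div_iff hn0, sub_mul, one_mul, div_mul_cancel₀ _ hn0]
  linarith

end Pool.Agent.N82.DD
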